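import Pool.Agent.Q317.HC.Embed

/-!
# An irreducible split crystallographic group that is not homogeneous

The group is `T ⋊ F`, where `T` is the lattice of the vectors with sum zero in `ℤ[i] ^ 5`, of rank
`8`, and the point group `F`, of order `80`, is generated by the multiplication `I` by `i`, the
cyclic shift `S` and `H x = (conj (x (3 b)))_b`. The triples `(I, S, H)` and `(I, S, I H)` have the
same type and are not related by an automorphism.
-/

set_option autoImplicit false

namespace Pool.Agent.Results.MP_881be3_lc.NotHomogeneous

open Pool.Agent.Q317.HC

/-- **There is a split irreducible crystallographic group, of dimension `8`, which is not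
homogeneous.** -/
theorem result : ∃ Γ : Subgroup (Equiv.Perm (Eu 8)),
    IsCrystallographic Γ ∧ IsSplit Γ ∧ IsIrreducible Γ ∧ ¬ Homogeneous Γ :=
  ⟨Gam, Gam_cryst, Gam_split, Gam_irred, Gam_not_homogeneous⟩

end Pool.Agent.Results.MP_881be3_lc.NotHomogeneous
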